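import Pool.Agent.W546.ST.Defs
import Pool.Agent.Helper82.OS.gauss_k2

/-! # ST-GK2 -/

set_option autoImplicit false
open Matrix MeasureTheory Set Metric Filter Topology
open scoped ENNReal ContDiff

namespace Pool.Agent.W239.ST
open Pool.Agent.Helper82.OS Pool.Agent.W546.ST

/-- the orthonormal basis `e, q_1, ..., q_N` -/
theorem exists_basis {N : ℕ} (G : GN N) : ∃ b : OrthonormalBasis (Fin (N + 1)) ℝ (E (N + 1)),
    b 0 = G.e ∧ ∀ j : Fin N, b j.succ = G.q j := by
  set v : Fin (N + 1) → E (N + 1) := Fin.cons G.e G.q with hv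
  have ho : Orthonormal ℝ v := by
    rw [orthonormal_iff_ite]
    intro i j
    refine Fin.cases ?_ (fun i => ?_) i <;> refine Fin.cases ?_ (fun j => ?_) j
    · simp [hv, G.he]
    · simp only [hv, Fin.cons_zero, Fin.cons_succ]
      rw [real_inner_comm, G.hqe j, if_neg (Fin.succ_ne_zero j).symm]
    · simp only [hv, Fin.cons_zero, Fin.cons_succ]
      rw [G.hqe i, if_neg (Fin.succ_ne_zero i)]
    · simp only [hv, Fin.cons_succ]
      have := (orthonormal_iff_ite.1 G.hq) i j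
      rw [this]
      simp
  have hcard : Fintype.card (Fin (N + 1)) = Module.finrank ℝ (E (N + 1)) := by simp
  let b := (basisOfOrthonormalOfCardEqFinrank ho hcard).toOrthonormalBasis (by
    rw [coe_basisOfOrthonormalOfCardEqFinrank]; exact ho)
  have hb : ∀ i, b i = v i := by
    intro i
    simp [b]
  exact ⟨b, by rw [hb]; rfl, fun j => by rw [hb]; rfl⟩

theorem pars {N : ℕ} (G : GN N) (p : E (N + 1)) (hp : inner ℝ p G.e = 0) :
    ∑ j, inner ℝ p (G.q j) ^ 2 = ‖p‖ ^ 2 := by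
  obtain ⟨b, b0, bs⟩ := exists_basis G
  have h := b.sum_sq_inner_left p
  rw [Fin.sum_univ_succ, b0, hp] at h
  simp only [bs] at h
  rw [← h]
  ring

theorem skew_e {N : ℕ} (G : GN N) (j : Fin N) : inner ℝ (G.Ga j G.e) G.e = 0 := by
  have h := G.hsk j G.e G.e
  rw [real_inner_comm (G.Ga j G.e) G.e] at h
  linarith

theorem hs_le {N : ℕ} (G : GN N) (j : Fin N) : ‖G.Ga j G.e‖ ^ 2 ≤ 1 - G.c j ^ 2 := by
  obtain ⟨b, b0, bs⟩ := exists_basis G
  have h1 : ∑ a : Fin (N + 1), ‖G.Ga j (EuclideanSpace.single a 1)‖ ^ 2 =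
      ∑ i, ‖G.Ga j (b i)‖ ^ 2 := by
    have e1 : ∀ a : Fin (N + 1), ‖G.Ga j (EuclideanSpace.single a 1)‖ ^ 2 =
        ∑ i, inner ℝ (G.Ga j (b i)) (EuclideanSpace.single a (1 : ℝ)) ^ 2 := by
      intro a
      rw [← b.sum_sq_inner_left]
      apply Finset.sum_congr rfl
      intro i _
      rw [G.hsk j (EuclideanSpace.single a (1 : ℝ)) (b i), neg_sq, real_inner_comm]
    have e2 : ∀ i, ‖G.Ga j (b i)‖ ^ 2 =
        ∑ a : Fin (N + 1), inner ℝ (G.Ga j (b i)) (EuclideanSpace.single a (1 : ℝ)) ^ 2 := by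
      intro i
      have := (EuclideanSpace.basisFun (Fin (N + 1)) ℝ).sum_sq_inner_left (G.Ga j (b i))
      rw [← this]
      apply Finset.sum_congr rfl
      intro a _
      rw [EuclideanSpace.basisFun_apply]
    simp only [e1, e2]
    exact Finset.sum_comm
  have h2 : 2 * ‖G.Ga j G.e‖ ^ 2 ≤ ∑ i, ‖G.Ga j (b i)‖ ^ 2 := by
    rw [Fin.sum_univ_succ, b0]
    have h3 : ‖G.Ga j G.e‖ ^ 2 ≤ ∑ i : Fin N, ‖G.Ga j (b i.succ)‖ ^ 2 := by
      rw [← pars G _ (skew_e G j)]
      apply Finset.sum_le_sum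
      intro i _
      rw [bs, real_inner_comm]
      have h4 : inner ℝ (G.q i) (G.Ga j G.e) = - inner ℝ (G.Ga j (G.q i)) G.e := by
        rw [G.hsk j (G.q i) G.e]; ring
      rw [h4, neg_sq]
      have h5 := abs_real_inner_le_norm (G.Ga j (G.q i)) G.e
      rw [G.he, mul_one] at h5
      exact sq_le_sq' (by linarith [neg_abs_le (inner ℝ (G.Ga j (G.q i)) G.e)])
        ((le_abs_self _).trans h5)
    linarith
  have h6 := G.hcs j
  rw [h1] at h6
  linarith

theorem c_le {N : ℕ} (G : GN N) (j : Fin N) : G.c j ^ 2 ≤ 1 := by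
  have h := hs_le G j
  have := sq_nonneg ‖G.Ga j G.e‖
  linarith

theorem gauss65 (x : ℝ) (hx : 0 ≤ x) (hx' : x ≤ 1 / 10) :
    ∫⁻ s : ℝ, ENNReal.ofReal (Real.exp (x * s ^ 2) * Real.exp (-(s ^ 2 / 2))) ≤
      ENNReal.ofReal (Real.sqrt (2 * Real.pi) * (1 + 6 / 5 * x)) := by
  have hb : (0 : ℝ) < 1 / 2 - x := by linarith
  have he : (fun s : ℝ => ENNReal.ofReal (Real.exp (x * s ^ 2) * Real.exp (-(s ^ 2 / 2)))) =
      fun s : ℝ => ENNReal.ofReal (Real.exp (-(1 / 2 - x) * s ^ 2)) := by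
    funext s
    rw [← Real.exp_add]
    congr 2
    ring
  rw [he, ← ofReal_integral_eq_lintegral_ofReal (integrable_exp_neg_mul_sq hb)
    (Filter.Eventually.of_forall fun s => (Real.exp_pos _).le), integral_gaussian]
  apply ENNReal.ofReal_le_ofReal
  have hpi := Real.pi_pos
  rw [Real.sqrt_le_left (by positivity), mul_pow, Real.sq_sqrt (by positivity),
    div_le_iff₀ hb]
  have h1 : 1 ≤ 2 * (1 + 6 / 5 * x) ^ 2 * (1 / 2 - x) := by
    have h2 : 0 ≤ x * (1 / 10 - x) := mul_nonneg hx (by linarith)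
    have h3 : 0 ≤ x * (x * (1 / 10 - x)) := mul_nonneg hx h2
    nlinarith
  nlinarith

theorem meas_Ga {N : ℕ} (G : GN N) (j : Fin N) : Measurable (fun w => G.Ga j w) :=
  (LinearMap.continuous_of_finiteDimensional (G.Ga j)).measurable

theorem meas_u2 {N : ℕ} (G : GN N) : Measurable G.u2 := by
  unfold GN.u2
  apply Finset.measurable_fun_sum
  intro j _
  exact (meas_inner_r_gauss_k2x _).pow_const 2

theorem meas_k2 {N : ℕ} (G : GN N) : Measurable G.k2 := by
  unfold GN.k2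
  apply Measurable.div
  · apply Measurable.mul (meas_inner_r_gauss_k2x _)
    apply Finset.measurable_fun_sum
    intro j _
    apply Measurable.mul
    · unfold GN.lv
      exact (meas_inner_r_gauss_k2x _).const_mul _
    · exact (meas_inner_r_gauss_k2x _).comp (meas_Ga G j)
  · exact meas_u2 G

theorem rot_sq {N : ℕ} (hN : 0 < N) (h : ℝ → ℝ) (hm : Measurable h) (hh : ∀ r, 0 ≤ h r)
    (z : E N) (k : ℝ) (hz : ‖z‖ ^ 2 ≤ k) :
    (N : ℝ≥0∞) * ∫⁻ y : E N, ENNReal.ofReal (h ‖y‖ * (inner ℝ y z ^ 2 / ‖y‖ ^ 2)) ≤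
      ENNReal.ofReal k * ∫⁻ y : E N, ENNReal.ofReal (h ‖y‖) := by
  rcases eq_or_ne z 0 with h0 | h0
  · simp [h0]
  · have hz0 : 0 < ‖z‖ := norm_pos_iff.mpr h0
    have hu : ‖(‖z‖⁻¹ • z)‖ = 1 := by
      rw [norm_smul, norm_inv, norm_norm, inv_mul_cancel₀ hz0.ne']
    have h1 := aux_rot_gauss_k2x hN h hm hh (‖z‖⁻¹ • z) hu
    have h2 : ∀ y : E N, ENNReal.ofReal (h ‖y‖ * (inner ℝ y z ^ 2 / ‖y‖ ^ 2)) =
        ENNReal.ofReal (‖z‖ ^ 2) *
          ENNReal.ofReal (h ‖y‖ * (inner ℝ y (‖z‖⁻¹ • z) ^ 2 / ‖y‖ ^ 2)) := by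
      intro y
      rw [← ENNReal.ofReal_mul (sq_nonneg _), inner_smul_right]
      congr 1
      field_simp
    simp_rw [h2]
    rw [lintegral_const_mul' _ _ ENNReal.ofReal_ne_top, mul_left_comm]
    exact mul_le_mul' (ENNReal.ofReal_le_ofReal hz) h1

theorem GK2 : St_GK2 := by
  intro N hN G c hc0 hc t
  have hN0 : 0 < N := by omega
  have hNr : (0 : ℝ) < N := by exact_mod_cast hN0
  obtain ⟨ι, hι1, hι2, hι3⟩ := D0 G.e G.he
  have hιe : ∀ y, inner ℝ (ι y) G.e = 0 := by
    intro y; rw [real_inner_comm]; exact hι1 y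
  -- basic facts
  have hin : ∀ (s : ℝ) (y : E N), inner ℝ (s • G.e + ι y) G.e = s := by
    intro s y
    rw [inner_add_left, inner_smul_left, real_inner_self_eq_norm_sq, G.he, hιe]
    simp
  have hq : ∀ (s : ℝ) (y : E N) (j : Fin N), inner ℝ (s • G.e + ι y) (G.q j) =
      inner ℝ (ι y) (G.q j) := by
    intro s y j
    rw [inner_add_left, inner_smul_left, real_inner_comm (G.q j) G.e, G.hqe]
    simp
  have hu2 : ∀ (s : ℝ) (y : E N), G.u2 (s • G.e + ι y) = ‖y‖ ^ 2 := by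
    intro s y
    rw [GN.u2, ← ι.norm_map, ← pars G (ι y) (hιe y)]
    exact Finset.sum_congr rfl (fun j _ => by rw [hq])
  have hns : ∀ (s : ℝ) (y : E N), ‖s • G.e + ι y‖ ^ 2 = s ^ 2 + ‖y‖ ^ 2 := by
    intro s y
    rw [@norm_add_sq ℝ, inner_smul_left, hι1, norm_smul, G.he, ι.norm_map]
    simp
  have hgw : ∀ (s : ℝ) (y : E N), gw (s • G.e + ι y) =
      Real.exp (-(s ^ 2 / 2)) * Real.exp (-(‖y‖ ^ 2 / 2)) := by
    intro s y
    unfold gw
    rw [hns, ← Real.exp_add]
    congr 1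
    ring
  set E2 : E N → ℝ := fun y => ∑ j, inner ℝ (ι y) (G.Ga j G.e) ^ 2 with hE2
  set ρ : E N → ℝ := fun y => E2 y / ‖y‖ ^ 2 with hρ
  have hE2n : ∀ p, 0 ≤ E2 p := by
    intro p
    simp only [hE2]
    positivity
  have hρ0 : ∀ y, 0 ≤ ρ y := by
    intro y
    have := hE2n y
    simp only [hρ]
    positivity
  have hdel : 0 ≤ G.del := by
    unfold GN.del
    exact Finset.sum_nonneg (fun j _ => by linarith [c_le G j])
  have hk2 : ∀ (s : ℝ) (y : E N), G.k2 (s • G.e + ι y) ^ 2 ≤ s ^ 2 * ρ y := by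
    intro s y
    rcases eq_or_ne y 0 with h0 | h0
    · unfold GN.k2
      rw [hu2, h0]
      simp [hρ]
    · have hy : 0 < ‖y‖ := norm_pos_iff.mpr h0
      have hsum : ∑ j, G.lv (s • G.e + ι y) j * inner ℝ (G.Ga j (s • G.e + ι y)) G.e =
          - ∑ j, (G.c j * inner ℝ (ι y) (G.q j)) * inner ℝ (ι y) (G.Ga j G.e) := by
        rw [← Finset.sum_neg_distrib]
        apply Finset.sum_congr rfl
        intro j _
        rw [GN.lv, hq, map_add, map_smul, inner_add_left, inner_smul_left, skew_e,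
          G.hsk j (ι y) G.e]
        simp
      have hcs : (∑ j, (G.c j * inner ℝ (ι y) (G.q j)) * inner ℝ (ι y) (G.Ga j G.e)) ^ 2 ≤
          ‖y‖ ^ 2 * E2 y := by
        refine (Finset.sum_mul_sq_le_sq_mul_sq Finset.univ _ _).trans ?_
        apply mul_le_mul_of_nonneg_right _ (hE2n y)
        rw [← ι.norm_map y, ← pars G (ι y) (hιe y)]
        apply Finset.sum_le_sum
        intro j _
        rw [mul_pow]
        have := c_le G j
        nlinarith [sq_nonneg (inner ℝ (ι y) (G.q j))]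
      unfold GN.k2
      rw [hin, hsum, hu2, div_pow, mul_pow, neg_sq]
      simp only [hρ]
      rw [div_le_iff₀ (by positivity)]
      calc s ^ 2 * (∑ j, (G.c j * inner ℝ (ι y) (G.q j)) * inner ℝ (ι y) (G.Ga j G.e)) ^ 2
          ≤ s ^ 2 * (‖y‖ ^ 2 * E2 y) := mul_le_mul_of_nonneg_left hcs (sq_nonneg _)
        _ = s ^ 2 * (E2 y / ‖y‖ ^ 2) * (‖y‖ ^ 2) ^ 2 := by
            field_simp
  have hρ1 : ∀ y, ρ y ≤ G.del := by
    intro y
    rcases eq_or_ne y 0 with h0 | h0
    · simp only [hρ, h0]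
      simpa using hdel
    · have hy : 0 < ‖y‖ := norm_pos_iff.mpr h0
      simp only [hρ]
      rw [div_le_iff₀ (by positivity)]
      simp only [hE2, GN.del]
      rw [Finset.sum_mul]
      apply Finset.sum_le_sum
      intro j _
      have h5 := abs_real_inner_le_norm (ι y) (G.Ga j G.e)
      rw [ι.norm_map] at h5
      have h6 : inner ℝ (ι y) (G.Ga j G.e) ^ 2 ≤ (‖y‖ * ‖G.Ga j G.e‖) ^ 2 := by
        rw [← sq_abs]
        exact pow_le_pow_left₀ (abs_nonneg _) h5 2
      rw [mul_pow] at h6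
      have h7 := hs_le G j
      nlinarith [sq_nonneg ‖y‖]
  -- measurability
  have hmI : Measurable (fun y : E N => ι y) := ι.continuous.measurable
  have hmρ : Measurable ρ := by
    simp only [hρ, hE2]
    apply Measurable.div
    · apply Finset.measurable_fun_sum
      intro j _
      exact ((meas_inner_r_gauss_k2x _).comp hmI).pow_const 2
    · exact measurable_norm.pow_const 2
  set h : ℝ → ℝ := fun r => Real.sqrt (t ^ 2 + r ^ 2) * Real.exp (-(r ^ 2 / 2)) with hh
  have hhm : Measurable h := by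
    have : Continuous h := by
      simp only [hh]
      fun_prop
    exact this.measurable
  have hh0 : ∀ r, 0 ≤ h r := by
    intro r
    simp only [hh]
    positivity
  set H : ℝ≥0∞ := ∫⁻ y : E N, ENNReal.ofReal (h ‖y‖) with hH
  -- bound of the rho integral
  have hrho : ∫⁻ y : E N, ENNReal.ofReal (h ‖y‖ * ρ y) ≤ ENNReal.ofReal (G.del / N) * H := by
    have hz : ∀ j, ∃ z : E N, ι z = G.Ga j G.e := fun j => hι2 _ (by
      rw [real_inner_comm]; exact skew_e G j)
    choose z hz using hz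
    have hzn : ∀ j, ‖z j‖ ^ 2 ≤ 1 - G.c j ^ 2 := by
      intro j
      rw [← ι.norm_map, hz]
      exact hs_le G j
    have he : ∀ y, ENNReal.ofReal (h ‖y‖ * ρ y) =
        ∑ j, ENNReal.ofReal (h ‖y‖ * (inner ℝ y (z j) ^ 2 / ‖y‖ ^ 2)) := by
      intro y
      have : h ‖y‖ * ρ y = ∑ j, (h ‖y‖ * (inner ℝ y (z j) ^ 2 / ‖y‖ ^ 2)) := by
        simp only [hρ, hE2]
        rw [Finset.sum_div, Finset.mul_sum]
        apply Finset.sum_congr rfl
        intro j _
        rw [← hz j, ι.inner_map_map]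
      rw [this, ENNReal.ofReal_sum_of_nonneg]
      intro j _
      have := hh0 ‖y‖
      positivity
    simp_rw [he]
    rw [lintegral_finsetSum]
    · have h1 : ∀ j, ∫⁻ y : E N,
          ENNReal.ofReal (h ‖y‖ * (inner ℝ y (z j) ^ 2 / ‖y‖ ^ 2)) ≤
          ENNReal.ofReal ((1 - G.c j ^ 2) / N) * H := by
        intro j
        have h2 := rot_sq hN0 h hhm hh0 (z j) _ (hzn j)
        have h3 : 0 ≤ 1 - G.c j ^ 2 := by linarith [c_le G j]
        rw [div_eq_mul_inv, ENNReal.ofReal_mul h3, ENNReal.ofReal_inv_of_pos hNr,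
          ENNReal.ofReal_natCast, mul_right_comm, ← div_eq_mul_inv,
          ENNReal.le_div_iff_mul_le (Or.inl (by exact_mod_cast hN0.ne'))
            (Or.inl (ENNReal.natCast_ne_top N)), mul_comm]
        exact h2
      refine le_trans (Finset.sum_le_sum fun j _ => h1 j) ?_
      rw [← Finset.sum_mul, ← ENNReal.ofReal_sum_of_nonneg]
      · unfold GN.del
        rw [Finset.sum_div]
      · intro j _
        have h3 : 0 ≤ 1 - G.c j ^ 2 := by linarith [c_le G j]
        positivity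
    · intro j _
      apply Measurable.ennreal_ofReal
      apply Measurable.mul
      · exact hhm.comp measurable_norm
      · exact ((meas_inner_r_gauss_k2x _).pow_const 2).div (measurable_norm.pow_const 2)
  have hm1 : Measurable (fun w : E (N + 1) =>
      ENNReal.ofReal (Real.sqrt (t ^ 2 + G.u2 w) * Real.exp (c * G.k2 w ^ 2) * gw w)) := by
    apply Measurable.ennreal_ofReal
    apply Measurable.mul
    · apply Measurable.mul
      · exact (measurable_const.add (meas_u2 G)).sqrt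
      · exact (((meas_k2 G).pow_const 2).const_mul c).exp
    · unfold gw
      exact ((measurable_norm.pow_const 2).div_const 2).neg.exp
  have hm2 : Measurable (fun w : E (N + 1) =>
      ENNReal.ofReal (Real.sqrt (t ^ 2 + G.u2 w) * gw w)) := by
    apply Measurable.ennreal_ofReal
    apply Measurable.mul
    · exact (measurable_const.add (meas_u2 G)).sqrt
    · unfold gw
      exact ((measurable_norm.pow_const 2).div_const 2).neg.exp
  -- RHS
  have hR : ∫⁻ w : E (N + 1), ENNReal.ofReal (Real.sqrt (t ^ 2 + G.u2 w) * gw w) =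
      ENNReal.ofReal (Real.sqrt (2 * Real.pi)) * H := by
    have hm2' : Measurable (fun p : ℝ × E N =>
        ENNReal.ofReal (Real.sqrt (t ^ 2 + G.u2 (p.1 • G.e + ι p.2)) * gw (p.1 • G.e + ι p.2))) :=
      hm2.comp hι3.measurable
    rw [← hι3.lintegral_comp hm2, lintegral_prod_symm _ hm2'.aemeasurable]
    have h1 : ∀ y : E N, ∫⁻ s : ℝ, ENNReal.ofReal (Real.sqrt (t ^ 2 + G.u2 (s • G.e + ι y)) *
        gw (s • G.e + ι y)) = ENNReal.ofReal (Real.sqrt (2 * Real.pi)) * ENNReal.ofReal (h ‖y‖) := by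
      intro y
      rw [← aux_gauss0_gauss_k2x, ← lintegral_mul_const' _ _ ENNReal.ofReal_ne_top]
      congr 1
      funext s
      rw [← ENNReal.ofReal_mul (Real.exp_pos _).le, hu2, hgw]
      congr 1
      simp only [hh]
      ring
    simp_rw [h1]
    rw [lintegral_const_mul' _ _ ENNReal.ofReal_ne_top]
  rw [hR]
  have hm1' : Measurable (fun p : ℝ × E N =>
      ENNReal.ofReal (Real.sqrt (t ^ 2 + G.u2 (p.1 • G.e + ι p.2)) *
        Real.exp (c * G.k2 (p.1 • G.e + ι p.2) ^ 2) * gw (p.1 • G.e + ι p.2))) :=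
    hm1.comp hι3.measurable
  rw [← hι3.lintegral_comp hm1, lintegral_prod_symm _ hm1'.aemeasurable]
  have hL : ∀ y : E N, ∫⁻ s : ℝ, ENNReal.ofReal (Real.sqrt (t ^ 2 + G.u2 (s • G.e + ι y)) *
      Real.exp (c * G.k2 (s • G.e + ι y) ^ 2) * gw (s • G.e + ι y)) ≤
      ENNReal.ofReal (Real.sqrt (2 * Real.pi)) *
        (ENNReal.ofReal (h ‖y‖) + ENNReal.ofReal (6 / 5 * c) * ENNReal.ofReal (h ‖y‖ * ρ y)) := by
    intro y
    have hx0 : 0 ≤ c * ρ y := mul_nonneg hc0 (hρ0 y)
    have hx1 : c * ρ y ≤ 1 / 10 := (mul_le_mul_of_nonneg_left (hρ1 y) hc0).trans hc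
    have h1 : ∀ s : ℝ, ENNReal.ofReal (Real.sqrt (t ^ 2 + G.u2 (s • G.e + ι y)) *
        Real.exp (c * G.k2 (s • G.e + ι y) ^ 2) * gw (s • G.e + ι y)) ≤
        ENNReal.ofReal (Real.exp (c * ρ y * s ^ 2) * Real.exp (-(s ^ 2 / 2))) *
          ENNReal.ofReal (h ‖y‖) := by
      intro s
      rw [← ENNReal.ofReal_mul (by positivity)]
      apply ENNReal.ofReal_le_ofReal
      rw [hu2, hgw]
      have h2 : Real.exp (c * G.k2 (s • G.e + ι y) ^ 2) ≤ Real.exp (c * ρ y * s ^ 2) := by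
        apply Real.exp_le_exp.mpr
        have := mul_le_mul_of_nonneg_left (hk2 s y) hc0
        nlinarith
      simp only [hh]
      calc Real.sqrt (t ^ 2 + ‖y‖ ^ 2) * Real.exp (c * G.k2 (s • G.e + ι y) ^ 2) *
            (Real.exp (-(s ^ 2 / 2)) * Real.exp (-(‖y‖ ^ 2 / 2)))
          ≤ Real.sqrt (t ^ 2 + ‖y‖ ^ 2) * Real.exp (c * ρ y * s ^ 2) *
            (Real.exp (-(s ^ 2 / 2)) * Real.exp (-(‖y‖ ^ 2 / 2))) := by
            gcongr
        _ = _ := by ring
    refine le_trans (lintegral_mono h1) ?_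
    rw [lintegral_mul_const' _ _ ENNReal.ofReal_ne_top]
    refine le_trans (mul_le_mul_left (gauss65 (c * ρ y) hx0 hx1) _) ?_
    have hhy := hh0 ‖y‖
    have hρy := hρ0 y
    rw [← ENNReal.ofReal_mul (by positivity), ← ENNReal.ofReal_mul (by positivity),
      ← ENNReal.ofReal_add (by positivity) (by positivity),
      ← ENNReal.ofReal_mul (by positivity)]
    apply ENNReal.ofReal_le_ofReal
    apply le_of_eq
    ring
  refine le_trans (lintegral_mono hL) ?_
  have hmh : Measurable (fun y : E N => ENNReal.ofReal (h ‖y‖)) :=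
    (hhm.comp measurable_norm).ennreal_ofReal
  rw [lintegral_const_mul' _ _ ENNReal.ofReal_ne_top,
    lintegral_add_left hmh,
    lintegral_const_mul' _ _ ENNReal.ofReal_ne_top, mul_left_comm]
  gcongr
  calc H + ENNReal.ofReal (6 / 5 * c) * ∫⁻ y : E N, ENNReal.ofReal (h ‖y‖ * ρ y)
      ≤ H + ENNReal.ofReal (6 / 5 * c) * (ENNReal.ofReal (G.del / N) * H) := by gcongr
    _ = (1 + ENNReal.ofReal (6 / 5 * c * G.del / N)) * H := by
        rw [add_mul, one_mul, ← mul_assoc, ← ENNReal.ofReal_mul (by positivity)]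
        congr 3
        ring
    _ = ENNReal.ofReal (1 + 6 / 5 * c * G.del / N) * H := by
        rw [ENNReal.ofReal_add zero_le_one (by positivity), ENNReal.ofReal_one]

end Pool.Agent.W239.ST
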