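import Pool.Agent.W79.ST.Defs
import Pool.Agent.W79.ST.Basic

/-!
Project ST (MP_debc19_co): components of the difference graph are small.
-/

set_option autoImplicit false

namespace Pool.Agent.W239.STC

open scoped Classical
open Pool.Agent.W79.ST

theorem T_succ (j : ℕ) : T (j + 1) = T j ^ 2 := by
  unfold T
  rw [← pow_mul, show j + 1 + 4 = (j + 4) + 1 from by ring, pow_succ]

theorem four_le (j : ℕ) : 4 * j + 13 ≤ 2 ^ (j + 4) := by
  induction j with
  | zero => norm_num
  | succ n ih =>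
    rw [show n + 1 + 4 = (n + 4) + 1 from by ring, pow_succ]
    omega

theorem le_T (j : ℕ) : j ≤ T j := by
  unfold T
  have h1 := four_le j
  have h2 : 2 ^ (j + 4) < 2 ^ (2 ^ (j + 4)) := Nat.lt_two_pow_self
  omega

theorem be_sq (j : ℕ) : be j * be j + 3 * be j ≤ T j := by
  have h1 : be j * be j = 2 ^ (4 * j + 12) := by
    unfold be
    rw [← pow_add]
    congr 1
    ring
  have h3 : 64 ≤ be j := by
    unfold be
    calc 64 = 2 ^ 6 := by norm_num
      _ ≤ 2 ^ (2 * j + 6) := Nat.pow_le_pow_right (by norm_num) (by omega)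
  have h4 : 3 * be j ≤ be j * be j := Nat.mul_le_mul_right _ (by omega)
  have h5 : 2 ^ (4 * j + 13) ≤ T j := Nat.pow_le_pow_right (by norm_num) (four_le j)
  have h6 : 2 ^ (4 * j + 13) = 2 * 2 ^ (4 * j + 12) := by
    rw [show 4 * j + 13 = (4 * j + 12) + 1 from rfl, pow_succ]
    ring
  omega

theorem be_le_T (j : ℕ) : be j ≤ T j := by
  have := be_sq j
  nlinarith [Nat.zero_le (be j * be j)]

theorem one_lt_be (j : ℕ) : 1 < be j := by
  have h3 : 64 ≤ be j := by
    unfold be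
    calc 64 = 2 ^ 6 := by norm_num
      _ ≤ 2 ^ (2 * j + 6) := Nat.pow_le_pow_right (by norm_num) (by omega)
  omega

theorem exists_level {s : ℕ} (hs : T 0 < s) : ∃ j, T j < s ∧ s ≤ T j ^ 2 := by
  have hex : ∃ k, s ≤ T k := ⟨s, le_T s⟩
  have h1 := Nat.find_spec hex
  have h2 : Nat.find hex ≠ 0 := by
    intro h
    rw [h] at h1
    omega
  obtain ⟨j, hj⟩ := Nat.exists_eq_succ_of_ne_zero h2
  refine ⟨j, ?_, ?_⟩
  · have := Nat.find_min hex (m := j) (by omega)
    omega
  · rw [← T_succ]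
    rw [hj] at h1
    exact h1

theorem exists_step {α : Type} {r : α → α → Prop} {R : Set α} {a b : α}
    (h : Relation.ReflTransGen r a b) (ha : a ∈ R) (hb : b ∉ R) :
    ∃ c d, c ∈ R ∧ d ∉ R ∧ r c d := by
  induction h with
  | refl => exact absurd ha hb
  | @tail c d _ h2 ih =>
    by_cases hc : c ∈ R
    · exact ⟨c, d, hc, hb, h2⟩
    · exact ih hc

variable {V : Type} [Fintype V]

theorem os_le_mul (D : Subgroup (Equiv.Perm V)) (v u : V) :
    os D u ≤ os D v * os (stb D v) u := by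
  have h1 := card_eq_os_mul D u
  have h2 := card_eq_os_mul D v
  have h3 := card_eq_os_mul (stb D v) u
  have h4 : stb (stb D v) u ≤ stb D u := by
    intro σ hσ
    obtain ⟨h5, h6⟩ := mem_stb.1 hσ
    exact mem_stb.2 ⟨(mem_stb.1 h5).1, h6⟩
  have h5 : Nat.card (stb (stb D v) u) ≤ Nat.card (stb D u) :=
    Nat.card_le_card_of_injective _ (Subgroup.inclusion_injective h4)
  have h6 : 0 < Nat.card (stb D u) := Nat.card_pos
  have h7 : os D u * Nat.card (stb D u) ≤ (os D v * os (stb D v) u) * Nat.card (stb D u) := by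
    rw [← h1, h2, h3, mul_assoc]
    exact Nat.mul_le_mul_left _ (Nat.mul_le_mul_left _ h5)
  exact Nat.le_of_mul_le_mul_right h7 h6

/-- the number of points of an orbit joined to a given point by the difference graph -/
theorem dif_small (hB : S_BASE) (G : SimpleGraph V) (D : Subgroup (Equiv.Perm V)) (hD : D ≤ aut G)
    (hg : Good D) (j : ℕ) (u x : V) (hu : 2 ≤ os D u) (hu3 : os D u ≤ T j ^ 3)
    (hx : T j < os D x) : ({y | y ∈ orb D x ∧ Dif G D u y} : Set V).ncard < be j := by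
  obtain ⟨-, b2, -, -, -⟩ := hB V G D hD
  set P : Set V := {y | y ∈ orb D x ∧ G.Adj u y} with hP
  have hPB : P ⊆ orb D x := fun y hy => hy.1
  have hPinv : ∀ σ ∈ stb D u, ∀ y ∈ P, σ y ∈ P := by
    intro σ hσ y hy
    obtain ⟨h1, h2⟩ := mem_stb.1 hσ
    refine ⟨?_, ?_⟩
    · obtain ⟨τ, hτ, rfl⟩ := hy.1
      exact ⟨σ * τ, D.mul_mem h1 hτ, rfl⟩
    · have h3 := (mem_aut.1 (hD h1) u y).2 hy.2
      rw [h2] at h3
      exact h3
  have h3 := hg.t3 j u x P hu hu3 hx hPB hPinv
  have hcard : P.ncard + (orb D x \ P).ncard = os D x := by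
    unfold os
    rw [add_comm]
    exact Set.ncard_sdiff_add_ncard_of_subset hPB (Set.toFinite _)
  have hbase : ∀ y ∈ orb D x, (base G D u y ↔ base G D u x) := by
    rintro y ⟨τ, hτ, rfl⟩
    have := b2 1 D.one_mem τ hτ u x
    simpa using this
  by_cases hb : base G D u x
  · have h4 : os D x < 2 * P.ncard := hb
    have h5 : (orb D x \ P).ncard < be j := by
      rcases h3 with h | h <;> omega
    refine lt_of_le_of_lt (Set.ncard_le_ncard ?_ (Set.toFinite _)) h5
    rintro y ⟨hy1, hy2⟩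
    refine ⟨hy1, fun hyP => ?_⟩
    exact hy2.2 ⟨fun _ => (hbase y hy1).2 hb, fun _ => hyP.2⟩
  · have h4 : ¬ (os D x < 2 * P.ncard) := hb
    have h5 : P.ncard < be j := by
      rcases h3 with h | h <;> omega
    refine lt_of_le_of_lt (Set.ncard_le_ncard ?_ (Set.toFinite _)) h5
    rintro y ⟨hy1, hy2⟩
    refine ⟨hy1, ?_⟩
    by_contra hyP
    exact hy2.2 ⟨fun h => absurd h hyP, fun h => absurd ((hbase y hy1).1 h) hb⟩

theorem main : S_BASE → S_COMP := by
  intro hB V _ G D hD hg u hu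
  obtain ⟨b1, b2, b3, b4, b5⟩ := hB V G D hD
  -- a point of the component with the smallest orbit
  obtain ⟨v, hvK, hvmin⟩ := Set.exists_min_image (comp G D u) (os D) (Set.toFinite _)
    ⟨u, mem_comp_self G D u⟩
  have hKv : comp G D v = comp G D u := comp_eq b3 hvK
  have hv2 : 2 ≤ os D v := two_le_os_of_mem_comp b3 b5 hu hvK
  obtain ⟨j, hj1, hj2⟩ := exists_level (hg.t0 v hv2)
  have hTpos : 0 < T j := by unfold T; positivity
  -- the admissible sets
  obtain ⟨R, ⟨hRK, hRinv, hRv, hRc⟩, hRmax⟩ := Set.exists_max_image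
    {R : Set V | R ⊆ comp G D u ∧ (∀ σ ∈ stb D v, ∀ x ∈ R, σ x ∈ R) ∧ v ∈ R ∧ R.ncard < be j}
    (fun R => R.ncard) (Set.toFinite _)
    ⟨{v}, by simpa using hvK, by
      rintro σ hσ x hx
      rw [Set.mem_singleton_iff] at hx ⊢
      rw [hx]
      exact (mem_stb.1 hσ).2, rfl, by
      rw [Set.ncard_singleton]
      exact one_lt_be j⟩
  have hbs := be_sq j
  have hRK2 : comp G D u ⊆ R := by
    by_contra hcon
    obtain ⟨z, hzK, hzR⟩ := Set.not_subset.1 hcon
    rw [← hKv] at hzK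
    obtain ⟨w, x, hw, hx, hwx⟩ := exists_step (r := Dif G D) hzK hRv hzR
    have hwK : w ∈ comp G D u := hRK hw
    have hxK : x ∈ comp G D u := comp_trans hwK (Relation.ReflTransGen.single hwx)
    have hw2 : 2 ≤ os D w := two_le_os_of_mem_comp b3 b5 hu hwK
    have hxos : T j < os D x := lt_of_lt_of_le hj1 (hvmin x hxK)
    have hw3 : os D w ≤ T j ^ 3 := by
      calc os D w ≤ os D v * os (stb D v) w := os_le_mul D v w
        _ ≤ T j ^ 2 * T j := Nat.mul_le_mul hj2 (le_trans (os_le_ncard hRinv hw)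
            (le_trans hRc.le (be_le_T j)))
        _ = T j ^ 3 := by ring
    have hsmall := dif_small hB G D hD hg j w x hw2 hw3 hxos
    set W : Set V := orb (stb D v) w with hW
    have hWR : W ⊆ R := orb_subset hRinv hw
    set R' : Set V := R ∪ ⋃ a ∈ W, {y | y ∈ orb D x ∧ Dif G D a y} with hR'
    have hblk : ∀ a ∈ W, ({y | y ∈ orb D x ∧ Dif G D a y} : Set V).ncard ≤ be j := by
      rintro a ⟨σ, hσ, rfl⟩
      have hσD := (mem_stb.1 hσ).1
      have h1 : ({y | y ∈ orb D x ∧ Dif G D (σ w) y} : Set V) ⊆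
          σ '' {y | y ∈ orb D x ∧ Dif G D w y} := by
        rintro y ⟨⟨τ, hτ, hy⟩, h2⟩
        refine ⟨σ⁻¹ y, ⟨⟨σ⁻¹ * τ, D.mul_mem (D.inv_mem hσD) hτ, by
          rw [Equiv.Perm.mul_apply, hy]⟩, ?_⟩, σ.apply_symm_apply y⟩
        rw [← b4 σ hσD]
        have h3 : σ (σ⁻¹ y) = y := σ.apply_symm_apply y
        rw [h3]
        exact h2
      exact le_trans (le_trans (Set.ncard_le_ncard h1 (Set.toFinite _))
        (Set.ncard_image_le (Set.toFinite _))) hsmall.le
    have hWfin : W.Finite := Set.toFinite _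
    have hU : (⋃ a ∈ W, {y | y ∈ orb D x ∧ Dif G D a y} : Set V).ncard ≤ W.ncard * be j := by
      have h1 : (⋃ a ∈ W, {y | y ∈ orb D x ∧ Dif G D a y} : Set V) =
          ⋃ a ∈ hWfin.toFinset, {y | y ∈ orb D x ∧ Dif G D a y} := by
        simp
      rw [h1]
      refine le_trans (Finset.set_ncard_biUnion_le _ _) ?_
      rw [Set.ncard_eq_toFinset_card W hWfin]
      refine le_trans (Finset.sum_le_card_nsmul _ _ (be j) ?_) (le_of_eq (smul_eq_mul _ _))
      intro a ha
      exact hblk a (hWfin.mem_toFinset.1 ha)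
    have hWc : W.ncard ≤ R.ncard := Set.ncard_le_ncard hWR (Set.toFinite _)
    have hR'c : R'.ncard ≤ T j := by
      have h1 := Set.ncard_union_le R (⋃ a ∈ W, {y | y ∈ orb D x ∧ Dif G D a y})
      rw [← hR'] at h1
      have h2 : W.ncard * be j ≤ be j * be j := Nat.mul_le_mul_right _ (le_trans hWc hRc.le)
      omega
    have hR'K : R' ⊆ comp G D u := by
      rintro y (hy | hy)
      · exact hRK hy
      · simp only [Set.mem_iUnion] at hy
        obtain ⟨a, ha, hy⟩ := hy
        exact comp_trans (hRK (hWR ha)) (Relation.ReflTransGen.single hy.2)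
    have hR'inv : ∀ σ ∈ stb D v, ∀ y ∈ R', σ y ∈ R' := by
      rintro σ hσ y (hy | hy)
      · exact Or.inl (hRinv σ hσ y hy)
      · right
        simp only [Set.mem_iUnion] at hy ⊢
        obtain ⟨a, ⟨τ, hτ, rfl⟩, ⟨ρ, hρ, hy1⟩, hy2⟩ := hy
        have hσD := (mem_stb.1 hσ).1
        refine ⟨σ (τ w), ⟨σ * τ, (stb D v).mul_mem hσ hτ, rfl⟩,
          ⟨σ * ρ, D.mul_mem hσD hρ, ?_⟩, ?_⟩
        · rw [Equiv.Perm.mul_apply, hy1]
        · exact (b4 σ hσD _ _).2 hy2
    have hv3 : os D v ≤ T j ^ 3 := by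
      calc os D v ≤ T j ^ 2 := hj2
        _ ≤ T j ^ 3 := Nat.pow_le_pow_right hTpos (by norm_num)
    have hR'small := hg.t1 j v R' hv2 hv3 hR'inv hR'c
      (fun y hy => lt_of_lt_of_le hj1 (hvmin y (hR'K hy)))
    have hmax := hRmax R' ⟨hR'K, hR'inv, Or.inl hRv, hR'small⟩
    have hxR' : x ∈ R' := by
      right
      simp only [Set.mem_iUnion]
      exact ⟨w, mem_orb_self _ _, mem_orb_self _ _, hwx⟩
    have hlt : R.ncard < R'.ncard := by
      refine Set.ncard_lt_ncard ?_ (Set.toFinite _)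
      refine ⟨Set.subset_union_left, fun h => hx (h hxR')⟩
    exact absurd hmax (not_le.2 hlt)
  have hKeq : R = comp G D u := Set.Subset.antisymm hRK hRK2
  rw [← hKeq]
  have h1 : R.ncard * (R.ncard + 3) ≤ be j * (be j + 3) :=
    Nat.mul_le_mul hRc.le (by omega)
  have h2 : be j * (be j + 3) = be j * be j + 3 * be j := by ring
  have h3 := hvmin u (mem_comp_self G D u)
  calc R.ncard * (R.ncard + 3) ≤ be j * (be j + 3) := h1
    _ = be j * be j + 3 * be j := h2
    _ ≤ T j := hbs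
    _ < os D v := hj1
    _ ≤ os D u := h3

end Pool.Agent.W239.STC
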